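import Pool.Agent.Zk22.GS

/-!
The weights for the weighted inequality for the Littlewood–Paley function `g_λ^*` on the line,
`1 < λ ≤ 2`, `2/λ < p < 2`, are exactly those of `A_p ∩ B_{λp/2}`.

Definitions: `Pool.Agent.Zk22.GStar` (file `Pool/Agent/Zk22/GDefs.lean`).
-/

namespace Pool.Agent.Results.MP_842e08_an.Characterisation

open MeasureTheory Pool.Agent.Zk22.GStar
open scoped ENNReal

/-- Let `1 < λ ≤ 2`, `2/λ < p < 2` and let `U` be a weight on the line. Then
`∫ g_λ^*(f)^p U ≤ C ∫ |f|^p U` holds for all `f` with finite right side (`C` independent of `f`) if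
and only if `U ∈ A_p ∩ B_{λp/2}`. Moreover, if it holds and `U` is not almost everywhere zero, the
Poisson integral of every such `f` converges absolutely at every point of the upper half plane. -/
theorem result : ∀ lam p : ℝ, 1 < lam → lam ≤ 2 → 2 / lam < p → p < 2 →
    ∀ U : ℝ → ℝ, IsWeight U →
      (GStarInequality lam p U ↔ MemA p U ∧ MemB (lam * p / 2) U) ∧
      (GStarInequality lam p U → ¬ U =ᵐ[volume] 0 →
        ∀ f : ℝ → ℝ, AEStronglyMeasurable f volume →
          ∫⁻ x, ENNReal.ofReal (|f x| ^ p * U x) ≠ ∞ →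
            ∀ z y : ℝ, 0 < y → Integrable (fun x => y * f (z - x) / (x ^ 2 + y ^ 2))) :=
  fun _ _ h1 h2 h3 h4 _ hU => Pool.Agent.Zk22.GL.characterisation h1 h2 h3 h4 hU

end Pool.Agent.Results.MP_842e08_an.Characterisation
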